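import Pool.Agent.helper6.EV.Spec

set_option autoImplicit false

namespace Pool.Agent.EV

open N1f72dd46 Filter MeasureTheory Complex Metric Pool.Agent.helper6.LD

theorem IN_mono : Monotone pe := by
  intro u v h
  unfold pe pc
  exact_mod_cast Nat.monotone_primeCounting (Nat.floor_le_floor (Real.exp_le_exp.mpr h))

theorem IN_self (n : ℕ) : Nat.primeCounting n ≤ n := by
  induction n with
  | zero => simp
  | succ n ih =>
    have h1 : Nat.primeCounting (n + 1) = Nat.primeCounting n + (if (n + 1).Prime then 1 else 0) := by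
      unfold Nat.primeCounting Nat.primeCounting'
      rw [Nat.count_succ]
    rw [h1]
    split_ifs <;> omega

theorem IN_bd (u : ℝ) : 0 ≤ pe u ∧ pe u ≤ Real.exp u := by
  refine ⟨by unfold pe pc; positivity, ?_⟩
  unfold pe pc
  have h1 : (Nat.primeCounting ⌊Real.exp u⌋₊ : ℝ) ≤ (⌊Real.exp u⌋₊ : ℝ) := by
    exact_mod_cast IN_self _
  exact h1.trans (Nat.floor_le (Real.exp_pos u).le)

theorem IN_zero (u : ℝ) (h : u < Real.log 2) : pe u = 0 := by
  unfold pe pc
  have h1 : Real.exp u < 2 := by
    rwa [← Real.lt_log_iff_exp_lt (by norm_num)]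
  have h2 : ⌊Real.exp u⌋₊ < 2 := by
    rw [Nat.floor_lt (Real.exp_pos u).le]
    exact_mod_cast h1
  have h3 : Nat.primeCounting ⌊Real.exp u⌋₊ ≤ Nat.primeCounting 1 :=
    Nat.monotone_primeCounting (by omega)
  have h4 : Nat.primeCounting 1 = 0 := by decide
  have : Nat.primeCounting ⌊Real.exp u⌋₊ = 0 := by omega
  simp [this]

theorem IN_int (k : ℕ) : IntegrableOn (fun u : ℝ => u ^ k * Real.exp (-3 * u)) (Set.Ioi 0) := by
  have h := integrableOn_rpow_mul_exp_neg_mul_rpow (p := 1) (s := (k : ℝ)) (b := 3)
    (by have : (0 : ℝ) ≤ k := by positivity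
        linarith) (by norm_num) (by norm_num)
  refine h.congr_fun ?_ measurableSet_Ioi
  intro x hx
  simp only [Real.rpow_one, Real.rpow_natCast]

theorem IN_val (k : ℕ) : ∫ u in Set.Ioi (0 : ℝ), u ^ k * Real.exp (-3 * u) =
    k.factorial / 3 ^ (k + 1) := by
  have h := Real.integral_rpow_mul_exp_neg_mul_Ioi (a := (k : ℝ) + 1) (r := 3)
    (by positivity) (by norm_num)
  have e : ∫ u in Set.Ioi (0 : ℝ), u ^ k * Real.exp (-3 * u) =
      ∫ (t : ℝ) in Set.Ioi 0, t ^ ((k : ℝ) + 1 - 1) * Real.exp (-(3 * t)) := by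
    refine setIntegral_congr_fun measurableSet_Ioi ?_
    intro x hx
    simp only [add_sub_cancel_right, Real.rpow_natCast, neg_mul]
  rw [e, h, Real.Gamma_nat_eq_factorial]
  have : ((1 : ℝ) / 3) ^ ((k : ℝ) + 1) = 1 / 3 ^ (k + 1) := by
    rw [show ((k : ℝ) + 1) = ((k + 1 : ℕ) : ℝ) by push_cast; ring, Real.rpow_natCast]
    simp
  rw [this]
  ring

theorem IN_meas (a : ℝ) : Measurable (fun u : ℝ => pe (u + a)) := by
  have : Monotone (fun u : ℝ => pe (u + a)) := fun u v h => IN_mono (by linarith)
  exact this.measurable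

theorem IN_i2 (k : ℕ) (a : ℝ) :
    IntegrableOn (fun u : ℝ => pe (u + a) * u ^ k * Real.exp (-4 * u)) (Set.Ioi 0) := by
  have h := (IN_int k).const_mul (Real.exp a)
  refine Integrable.mono' h ?_ ?_
  · have hm := IN_meas a
    have : Measurable (fun u : ℝ => pe (u + a) * u ^ k * Real.exp (-4 * u)) := by
      fun_prop
    exact this.aestronglyMeasurable
  · refine (ae_restrict_iff' measurableSet_Ioi).mpr (Eventually.of_forall ?_)
    intro u hu
    have hu' : (0 : ℝ) < u := hu
    have h1 := IN_bd (u + a)
    rw [Real.norm_of_nonneg (mul_nonneg (mul_nonneg h1.1 (by positivity)) (Real.exp_pos _).le)]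
    calc pe (u + a) * u ^ k * Real.exp (-4 * u) ≤ Real.exp (u + a) * u ^ k * Real.exp (-4 * u) := by
          gcongr
          exact h1.2
      _ = Real.exp a * (u ^ k * Real.exp (-3 * u)) := by
          have : Real.exp (u + a) * Real.exp (-4 * u) = Real.exp a * Real.exp (-3 * u) := by
            rw [← Real.exp_add, ← Real.exp_add]
            ring_nf
          calc _ = (Real.exp (u + a) * Real.exp (-4 * u)) * u ^ k := by ring
            _ = _ := by rw [this]; ring

theorem IN : IN_stmt := by
  refine ⟨IN_bd, IN_mono, IN_zero, ?_, IN_i2, ?_⟩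
  · intro s k a hs
    have h := IN_i2 k a
    refine Integrable.mono' h ?_ ?_
    · have hm := IN_meas a
      have : Measurable (fun u : ℝ => (pe (u + a) : ℂ) * (u : ℂ) ^ k * Complex.exp (-s * u)) := by
        fun_prop
      exact this.aestronglyMeasurable
    · refine (ae_restrict_iff' measurableSet_Ioi).mpr (Eventually.of_forall ?_)
      intro u hu
      have hu' : (0 : ℝ) < u := hu
      have h1 := IN_bd (u + a)
      rw [norm_mul, norm_mul, norm_pow, Complex.norm_exp, Complex.norm_real, Complex.norm_real,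
        Real.norm_of_nonneg h1.1, Real.norm_of_nonneg hu'.le]
      have : (-s * (u : ℂ)).re = -4 * u := by
        simp [hs]
      rw [this]
  · intro k
    rw [← IN_val k]
    refine setIntegral_mono_on ?_ (IN_int k) measurableSet_Ioi ?_
    · have := IN_i2 k 0
      simpa using this
    · intro u hu
      have hu' : (0 : ℝ) < u := hu
      have h1 := IN_bd u
      calc pe u * u ^ k * Real.exp (-4 * u) ≤ Real.exp u * u ^ k * Real.exp (-4 * u) := by
            gcongr
            exact h1.2
        _ = u ^ k * Real.exp (-3 * u) := by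
            have : Real.exp u * Real.exp (-4 * u) = Real.exp (-3 * u) := by
              rw [← Real.exp_add]
              ring_nf
            calc _ = (Real.exp u * Real.exp (-4 * u)) * u ^ k := by ring
              _ = _ := by rw [this]; ring

end Pool.Agent.EV
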